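import Mathlib

set_option autoImplicit false

namespace Pool.Agent.Results.MP_a59f64_al.Neg

open MvPolynomial

theorem result : ∀ (K : Type) [Field K] [CharZero K],
    ∃ (φ : MvPolynomial (Fin 4) K →ₐ[K] MvPolynomial (Fin 4) K) (p : MvPolynomial (Fin 4) K),
      Function.Injective φ ∧ φ p = X 0 ∧
      ¬ ∃ α : MvPolynomial (Fin 4) K ≃ₐ[K] MvPolynomial (Fin 4) K, α (X 0) = p := by
  intro K _ _
  refine ⟨aeval ![X 0 + X 1 * X 2 * X 0, X 0 * X 3 + X 1 * (X 2 * X 0 * X 3 + 1), X 2 * X 0,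
    X 2 * X 0 * X 3 + 1], X 0 * X 3 - X 1 * X 2, (injective_iff_map_eq_zero _).2 fun q hq => ?_,
    by simp; ring, fun ⟨α, h⟩ => ?_⟩
  · have : q * (X 2 * (X 0 * X 3 - X 1 * X 2)) = 0 := by
      refine MvPolynomial.funext fun m => ?_
      by_cases h : m 2 * (m 0 * m 3 - m 1 * m 2) = 0
      · simp [h]
      obtain ⟨h1, h2⟩ := mul_ne_zero_iff.1 h
      set t := m 0 * m 3 - m 1 * m 2 with ht
      have := congrArg (aeval ![t, (m 0 - t) / m 2, m 2 / t, (m 3 - 1) / m 2]) hq
      rw [← AlgHom.comp_apply, comp_aeval, map_zero] at this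
      rw [map_mul, map_zero, ← coe_aeval_eq_eval, RingHom.coe_coe, mul_eq_zero]
      left
      rw [← this]
      congr 2
      funext i
      fin_cases i <;> simp <;> field_simp <;> ring
    refine (mul_eq_zero.1 this).resolve_right fun h => ?_
    simpa using congrArg (eval ![0, 1, 1, 0]) h
  · have h1 := congrArg (fun q => constantCoeff (α (pderiv 0 (α.symm q)))) h
    simp [Derivation.leibniz] at h1

end Pool.Agent.Results.MP_a59f64_al.Neg
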